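import Pool.Agent.W941.RP.Stm

/-!
Project RP, part INV: the values of row-symmetric polynomials at the test matrices have exponents
divisible by `m`.
-/

namespace Pool.Agent.W377.RP

open MvPolynomial Pool.Agent.W941.RP

set_option autoImplicit false

/-- scaling of one variable -/
noncomputable def zt {d : ℕ} (ω : ℂ) (j0 : Fin d) : MvPolynomial (Fin d) ℂ →ₐ[ℂ] MvPolynomial (Fin d) ℂ :=
  aeval (fun j => C (if j = j0 then ω else 1) * X j)

theorem zt_monomial {d : ℕ} (ω : ℂ) (j0 : Fin d) (s : Fin d →₀ ℕ) (c : ℂ) :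
    zt ω j0 (monomial s c) = C (ω ^ (s j0)) * monomial s c := by
  unfold zt
  rw [aeval_monomial]
  have h1 : (s.prod fun i k => (C (if i = j0 then ω else 1) * X i : MvPolynomial (Fin d) ℂ) ^ k) =
      C (ω ^ (s j0)) * s.prod fun i k => (X i : MvPolynomial (Fin d) ℂ) ^ k := by
    simp only [mul_pow]
    rw [Finsupp.prod_mul]
    congr 1
    rw [Finsupp.prod_fintype _ _ (fun i => pow_zero _), Finset.prod_eq_single j0]
    · rw [if_pos rfl, C_pow]
    · intro b _ hb
      rw [if_neg hb, C_1, one_pow]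
    · intro h
      exact absurd (Finset.mem_univ _) h
  rw [h1, monomial_eq, algebraMap_eq]
  ring

theorem coeff_zt {d : ℕ} (ω : ℂ) (j0 : Fin d) (a : Fin d →₀ ℕ) (p : MvPolynomial (Fin d) ℂ) :
    coeff a (zt ω j0 p) = ω ^ (a j0) * coeff a p := by
  induction p using MvPolynomial.induction_on' with
  | monomial s c =>
    rw [zt_monomial, coeff_C_mul]
    by_cases h : s = a
    · rw [h]
    · rw [coeff_monomial, if_neg h, mul_zero, mul_zero]
  | add p q hp hq => rw [map_add, coeff_add, coeff_add, hp, hq, mul_add]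

theorem rot (m : ℕ) (ω : ℂ) (hω : ω ^ m = 1) (l : Fin m) :
    ω ^ (finRotate m l : ℕ) = ω ^ (l : ℕ) * ω := by
  obtain _ | m := m
  · exact l.elim0
  · rw [finRotate_apply, Fin.val_add_one, ← pow_succ]
    split_ifs with h
    · rw [pow_zero, h, Fin.val_last, hω]
    · rfl

theorem inv : InvStmt := by
  intro k m r n e ω hm hω x f hf a ha j0
  obtain ⟨sg, hsg⟩ : ∃ sg : Fin (k + 1) → Equiv.Perm (Fin m),
      sg = fun j => if j = j0 then finRotate m else Equiv.refl _ := ⟨_, rfl⟩
  obtain ⟨π, hπ⟩ : ∃ π : Equiv.Perm (Fin n),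
      π = (e.trans (Equiv.sumCongr (Equiv.prodCongrRight sg) (Equiv.refl _))).trans e.symm := ⟨_, rfl⟩
  have hinl : ∀ i j l, e i = Sum.inl (j, l) → e (π i) = Sum.inl (j, sg j l) := by
    intro i j l h
    rw [hπ]
    simp [h]
  have hinr : ∀ i b, e i = Sum.inr b → e (π i) = Sum.inr b := by
    intro i b h
    rw [hπ]
    simp [h]
  have htm : ∀ i c, zt ω j0 (tm e ω x i c) = tm e ω x (π i) c := by
    intro i c
    rcases hi : e i with ⟨j, l⟩ | b
    · rcases hc : e c with ⟨a, g⟩ | b'
      · simp only [tm, hi, hc, hinl i j l hi]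
        by_cases h : a = j + (if x j g then 1 else 0)
        · rw [if_pos h, if_pos h, map_mul, zt, aeval_C, aeval_X, algebraMap_eq, hsg]
          by_cases hj : j = j0
          · simp only [if_pos hj]
            rw [rot m ω hω.pow_eq_one, C_mul]
            ring
          · simp only [if_neg hj, Equiv.refl_apply]
            rw [C_1, one_mul]
        · rw [if_neg h, if_neg h, map_zero]
      · simp only [tm, hi, hc, hinl i j l hi]
        rw [map_zero]
    · rcases hc : e c with ⟨a, g⟩ | b'
      · simp only [tm, hi, hc, hinr i b hi]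
        rw [map_zero]
      · simp only [tm, hi, hc, hinr i b hi]
        split_ifs with h
        · rw [map_one]
        · rw [map_zero]
  have hz : zt ω j0 (aeval (fun p => tm e ω x p.1 p.2) f) = aeval (fun p => tm e ω x p.1 p.2) f := by
    rw [comp_aeval_apply]
    conv_rhs => rw [← hf π, aeval_rename]
    congr 2
    funext p
    exact htm p.1 p.2
  have h1 := coeff_zt ω j0 a (aeval (fun p => tm e ω x p.1 p.2) f)
  rw [hz] at h1
  have h2 : ω ^ (a j0) = 1 := by
    have h3 : (ω ^ (a j0) - 1) * coeff a (aeval (fun p => tm e ω x p.1 p.2) f) = 0 := by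
      rw [sub_mul, one_mul, ← h1, sub_self]
    rcases mul_eq_zero.1 h3 with h | h
    · exact sub_eq_zero.1 h
    · exact absurd h ha
  exact hω.dvd_of_pow_eq_one _ h2

end Pool.Agent.W377.RP
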